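import Pool.Agent.H738R3.CZ.Fin

/-!
# Complex inflection points obstruct analytic first integrals of outer billiards

Modules proved by helpers 8, 18, 20, 25, 48, 51, 55, 60, 75, 85, 89, 92, 93, 131, 133, 134, 155, 196, 197, 201, 218, 255, 272, 368, 379, 423, 439, 479, 495, 503, 541, 584, 602, 613, 640, 672, 678, 680, 708, 723, 747, 771, 781, 782, 847, 879, 881, 898, 903, 913, 948, 965, 971, 992, 738.
-/

open Complex Set Metric

namespace Pool.Agent.Results.MP_ae5b4e_an.OuterNoInflection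

/-- `F`, on the disc of centre `c` and radius `r`, is an analytic continuation of the function `g`
on the interval `(x0, x1)`: there is a chain of discs, the first of which meets the interval, the
last of which is this disc and consecutive ones of which intersect, with analytic functions on
them that agree on consecutive intersections, the first of which is `g` on the interval and the
last of which is `F`. -/
def IsContinuation (g : ℝ → ℝ) (x0 x1 : ℝ) (c : ℂ) (r : ℝ) (F : ℂ → ℂ) : Prop :=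
  ∃ (k : ℕ) (a : ℕ → ℂ) (d : ℕ → ℝ) (R : ℕ → ℂ → ℂ),
    (∀ i, i ≤ k → DifferentiableOn ℂ (R i) (ball (a i) (d i))) ∧
    (∀ i, i < k → (ball (a i) (d i) ∩ ball (a (i + 1)) (d (i + 1))).Nonempty ∧
      EqOn (R i) (R (i + 1)) (ball (a i) (d i) ∩ ball (a (i + 1)) (d (i + 1)))) ∧
    (∃ x ∈ Ioo x0 x1, (x : ℂ) ∈ ball (a 0) (d 0)) ∧
    (∀ x ∈ Ioo x0 x1, (x : ℂ) ∈ ball (a 0) (d 0) → R 0 x = g x) ∧
    a k = c ∧ d k = r ∧ EqOn (R k) F (ball c r)

/-- Let `y = f(x)`, `x0 < x < x1`, be an arc with `f'' > 0`, and let `K` be a nonconstant real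
analytic function on a connected neighbourhood `U` of the arc whose level sets are exchanged by
the point reflections of the tangent lines in their points of tangency (a first integral of the
outer billiard near the arc).  Then no analytic continuation of `f''` to the complex domain has a
zero: the complexified curve has no inflection point. -/
theorem result : ∀ (f f' f'' : ℝ → ℝ) (x0 x1 : ℝ), x0 < x1 →
    (∀ x ∈ Ioo x0 x1, HasDerivAt f (f' x) x ∧ HasDerivAt f' (f'' x) x ∧ 0 < f'' x) →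
    ∀ (K : ℝ → ℝ → ℝ) (U : Set (ℝ × ℝ)), IsOpen U → IsPreconnected U →
    (∀ x ∈ Ioo x0 x1, (x, f x) ∈ U) → AnalyticOnNhd ℝ (Function.uncurry K) U →
    (∃ z ∈ U, ∃ w ∈ U, K z.1 z.2 ≠ K w.1 w.2) →
    (∀ x ∈ Ioo x0 x1, ∃ ε > 0, ∀ δ : ℝ, 0 < δ → δ < ε →
      K (x + δ) (f x + f' x * δ) = K (x - δ) (f x - f' x * δ)) →
    ∀ (c : ℂ) (r : ℝ) (F : ℂ → ℂ), IsContinuation f'' x0 x1 c r F → ∀ z ∈ ball c r, F z ≠ 0 := by
  rintro f f' f'' x0 x1 h01 hf K U hU hUc hgr hK ⟨z1, hz1, w1, hw1, hne⟩ hinv c r F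
    ⟨k, a, d, R, hd, hi, hx, hR, rfl, rfl, hF⟩ z hz
  rw [← hF hz]
  refine H738CZ.fin_out f f' f'' x0 x1 h01 hf K U hU hUc hgr hK hinv ?_ k a d R
    ⟨hd, fun i hi' => (hi i hi').1, fun i hi' => (hi i hi').2⟩ hx hR z hz
  rintro ⟨c, hc⟩
  exact hne ((hc z1 hz1).trans (hc w1 hw1).symm)

end Pool.Agent.Results.MP_ae5b4e_an.OuterNoInflection
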