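import Pool.Agent.H719R2.PIR.Fin

/-!
# MP_ae5b4e_an: rigidity for the unit circle and rational families of projective involutions

`Y` is a function whose level sets `{Y = c}`, `0 ≤ c ≤ 1`, are closed convex curves foliating a
(possibly very thin) closed collar of the unit circle on its exterior side (`IsCollar Y`).  Assume
that every tangent involution `σ_p` (`‖p‖ = 1`) is projective on the whole collar and depends
rationally on `p` (`RationalInvolutions Y`): the two points `p + s i p`, `p + t i p` of a leaf on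
the tangent line at `p` satisfy `1/s + 1/t = N(p)/D(p)`.

Then all leaves are ellipses (`s * ‖ζ‖ < 1`), and they all belong to one pencil of conics.
-/

open Complex
open Pool.Agent.H719R2.PIB

theorem Pool.Agent.Results.MP_ae5b4e_an.RationalStructure.result (Y : ℂ → ℝ)
    (hY : IsCollar Y) (hr : RationalInvolutions Y) :
    ∃ (κ : ℝ) (η ζ : ℂ), (∀ p : ℂ, ‖p‖ = 1 → 0 < κ + (η * p + ζ * p ^ 2).re) ∧
      ∀ c, 0 ≤ c → c ≤ 1 → ∃ s : ℝ, 0 ≤ s ∧ s * ‖ζ‖ < 1 ∧
        {z : ℂ | Y z = c} = {z : ℂ | normSq z - 1 = s * (κ + (η * z + ζ * z ^ 2).re)} :=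
  rational_rigidity hY hr
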