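import Pool.Agent.H719R2.PIB.Ell

/-!
# MP_ae5b4e_an: rigidity for the unit circle, central symmetry, up to the 4-periodic leaf

`Y` is a function whose level sets `{Y = c}`, `0 ≤ c ≤ 1`, are closed convex curves foliating a
closed collar of the unit circle on its exterior side (`IsCollar Y`).  Assume

* every tangent involution `σ_p` (`‖p‖ = 1`) is projective on the whole collar
  (`ProjectiveInvolution Y p`);
* the leaves are symmetric about the centre of the circle (`IsSymmetric Y`);
* the outer leaf `{Y = 1}` consists of vertices of quadrilaterals circumscribed about the unit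
  circle and inscribed in that leaf (`OuterLeafFourPeriodic Y`).

Then all leaves are ellipses (`s * (1 + ‖ζ‖) < 1`), and they all belong to one pencil of conics.
-/

open Complex
open Pool.Agent.H719R2.PIB

theorem Pool.Agent.Results.MP_ae5b4e_an.RigidityFourPeriodic.result (Y : ℂ → ℝ)
    (hY : IsCollar Y) (hp : ∀ p : ℂ, ‖p‖ = 1 → ProjectiveInvolution Y p)
    (hs : IsSymmetric Y) (h4 : OuterLeafFourPeriodic Y) :
    ∃ ζ : ℂ, ‖ζ‖ < 1 ∧ ∀ c, 0 ≤ c → c ≤ 1 → ∃ s : ℝ, 0 ≤ s ∧ s * (1 + ‖ζ‖) < 1 ∧
      {z : ℂ | Y z = c} = {z : ℂ | normSq z - 1 = s * (normSq z - (ζ * z ^ 2).re)} :=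
  rigidity_ellipse hY hp hs h4
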