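import Pool.Agent.H719R2.PI.Final

/-!
# A smooth foliation around the circle with projective tangent involutions and no conic leaf
-/

open Set Complex
open Pool.Agent.H719R2.PI

/-- There is a `C^∞` foliation, by closed convex curves, of an exterior neighbourhood of the unit
circle such that the involution `σ_p` is projective near `p` for every `p` on the circle (in fact
it is the reflection of the tangent line in `p`, on a neighbourhood of `p` of radius at least
`|p + 1| / 2` when `p ≠ -1`, and wherever it is defined when `p = -1`), while no leaf other than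
the circle itself is contained in a conic. -/
theorem Pool.Agent.Results.MP_ae5b4e_an.SmoothCounterexample.result :
    ∃ (U : Set ℂ) (Y : ℂ → ℝ),
      IsTable (Metric.closedBall 0 1) ∧
      IsExteriorFoliation (Metric.closedBall 0 1) U Y ∧
      (∀ p ∈ frontier (Metric.closedBall (0 : ℂ) 1), ∀ v : ℂ,
        IsTangentDir (Metric.closedBall 0 1) p v → SigmaProjective U Y p v) ∧
      (∀ p : ℂ, ‖p‖ = 1 → ∀ t : ℝ, (p = -1 ∨ |t| < ‖p + 1‖ / 2) →
        Y (p + t • (I * p)) = Y (p - t • (I * p))) ∧
      ∀ c > 0, (leaf (Metric.closedBall 0 1) U Y c).Nonempty →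
        ∀ q : Fin 6 → ℝ, q ≠ 0 → ¬ leaf (Metric.closedBall 0 1) U Y c ⊆ conic q :=
  ⟨dom, Y, table, foliation, fun _ hp _ hv => sigma (mem_sphere_iff.1 hp) hv,
    fun _ hp _ ht => reflection hp ht,
    fun _ h0 hne _ hq => not_conic h0 (leaf_nonempty hne).2 hq⟩
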